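import Pool.Agent.AbAlg.Desc
import Pool.Agent.AbAlg.Prod

/-!
# Murre's conjectures for motives of abelian type and algebraically trivial cycles
-/

open CategoryTheory MonoidalCategory Limits
open Pool.Agent.Helper15.Murre Pool.Agent.Helper15.ABC
open Pool.Agent.AbAlg

universe t w v' u' v u

namespace Pool.Agent.Results.MP_38de51_ag.AbelianAlg

/-- `C'` stands for the Chow motives over a universal domain `Ω`, `C` for the Chow motives over a
field `k ⊆ Ω`, `Φ` for `N ↦ N_Ω`. `G` is a set of pointed curves over `Ω`, at least one of genus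
`≥ 1`: for example all curves (then the motives `N` with `Generated W' G.prod N` are the motives of
abelian type), or one curve `X` (then they are the motives generated by the powers of `X`).
`A` runs through the products of Jacobians of curves in `G`; `h_j(A) = Sym^j h₁(A)`.

1. Let `M` be any motive over `Ω` with a Chow-Kunneth decomposition `D`. The product decompositions
of `M × X` satisfy (B), for all curves `X` in `G`, if and only if `D` satisfies (B) and
`CH_l(M_{2l})_alg = 0` for all `l`.
2. For every `n` the following are equivalent: (B), for every Chow-Kunneth decomposition, for the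
cycles of dimension `≤ n + 1` or codimension `≤ n` on all direct summands of products of (arbitrarily
many) curves; `CH_{n+1}(h₁(X₁) ⊗ ⋯ ⊗ h₁(X_{2n+1})) = 0`;
`CH_n(h₁(X₁) ⊗ ⋯ ⊗ h₁(X_{2n}))_alg = 0`; `CH_{n+1}(h_{2n+1}(A)) = 0` for all `A`;
`CH_n(h_{2n}(A))_alg = 0` for all `A`.
3. The analogue for (B) and (D), with homologically trivial cycles.
4. The following are equivalent: (A), (B) for every Chow-Kunneth decomposition, and (C), for all
motives generated by the curves; `CH_0(N) = 0` if `H_*(N) = H_{-1}(N)`; `CH_0(N)_alg = 0` if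
`H_*(N) = H_0(N)`; `CH_{n+1}(h_{2n+1}(A)) = 0` for all `n` and `A`; `CH_n(h_{2n}(A))_alg = 0` for
all `n` and `A`.
5. The analogue for (A), (B), (C), (D).
6. 7. If the statements in 4. (in 5.) hold, then (A), (B), (C) (respectively (A), (B), (C), (D)),
for every Chow-Kunneth decomposition, hold for every motive `N` over `k` such that `N_Ω` is generated
by the curves.

If `G` consists of all curves, then the motive of an abelian variety of dimension `g` is a direct
summand of the motive of a product of `g` curves; so for `n = 1` the first statement in 2. is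
Beauville's theorem. -/
theorem result
    {C : Type u} [Category.{v} C] [Preadditive C] [Linear ℚ C] [MonoidalCategory C]
    [SymmetricCategory C] [RigidCategory C]
    {C' : Type u'} [Category.{v'} C'] [Preadditive C'] [Linear ℚ C'] [MonoidalCategory C']
    [SymmetricCategory C'] [MonoidalPreadditive C'] [MonoidalLinear ℚ C'] [RigidCategory C']
    [HasBinaryBiproducts C'] [IsIdempotentComplete C'] {F : Type w} [Field F]
    (W : MotivicHomology C F) (W' : MotivicHomology C' F) (Φ : C ⥤ C')
    (B : BaseChange W W' Φ) (K : KunnethDescends W' Φ) (G : Curves.{t} W') :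
    (∀ (M : C') (D : CK W' M),
      (∀ (X : G.Curve) (E : CK W' (M ⊗ full W' (G.h X))), G.IsProduct D X E → E.MurreB) ↔
        D.MurreB ∧ ∀ l, D.CH l (2 * l) ⊓ G.Alg l M = ⊥) ∧
    (∀ n : ℕ, List.TFAE [
      G.RangeB n,
      G.TensZero (all W') (n + 1) (2 * n + 1),
      G.TensZero G.Alg n (2 * n),
      G.SymZero (all W') (n + 1) (2 * n + 1),
      G.SymZero G.Alg n (2 * n)]) ∧
    (∀ n : ℕ, List.TFAE [
      G.RangeB n ∧ G.RangeD n,
      G.TensZero W'.CHhom n (2 * n),
      G.SymZero W'.CHhom n (2 * n)]) ∧
    List.TFAE [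
      ∀ N : C', Generated W' G.prod N → HoldsABC W' N,
      G.PureZero (all W') (-1),
      G.PureZero G.Alg 0,
      ∀ n : ℕ, G.SymZero (all W') (n + 1) (2 * n + 1),
      ∀ n : ℕ, G.SymZero G.Alg n (2 * n)] ∧
    List.TFAE [
      ∀ N : C', Generated W' G.prod N → HoldsABCD W' N,
      G.PureZero W'.CHhom 0,
      ∀ n : ℕ, G.SymZero W'.CHhom n (2 * n)] ∧
    ((∀ N : C', Generated W' G.prod N → HoldsABC W' N) →
      ∀ N : C, Generated W' G.prod (Φ.obj N) → HoldsABC W N) ∧
    ((∀ N : C', Generated W' G.prod N → HoldsABCD W' N) →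
      ∀ N : C, Generated W' G.prod (Φ.obj N) → HoldsABCD W N) := by
  refine ⟨fun M D => prod_iff G D, levelR G, levelDR G, ?_, globD G, descABC B K G, descABCD B K G⟩
  have h := glob G
  have h2 : G.PureZero (all W') (-1) ↔
      ∀ N : C', Generated W' G.prod N → W'.gr N (-1) = ⊤ → ∀ α : W'.CH 0 N, α = 0 :=
    ⟨fun h N hN hw α => h N hN hw α trivial, fun h N hN hw α _ => h N hN hw α⟩
  have h4 : (∀ n : ℕ, G.SymZero (all W') (n + 1) (2 * n + 1)) ↔
      ∀ (n : ℕ) (X : G.Curve) (L : List G.Curve),
        ∀ α : W'.CH (n + 1) (tpow (G.jac X L) (2 * n + 1)),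
          (∀ i, α ≫ adj (G.jac X L) (2 * n + 1) i = α) → α = 0 :=
    ⟨fun h n X L α hα => h n X L α trivial hα, fun h n X L α _ hα => h n X L α hα⟩
  rw [h2, h4]
  exact h

end Pool.Agent.Results.MP_38de51_ag.AbelianAlg
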