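import Pool.Agent.Mid.Final

/-!
# Murre's conjectures and the middle-dimensional cycles of the middle weight
-/

open CategoryTheory MonoidalCategory Limits
open Pool.Agent.Helper15.Murre Pool.Agent.Helper58.MAD Pool.Agent.Mid

universe w v u

/-- `Geometry` is the formal setting: the Chow motives over all fields `k`, with the classical facts
about hyperplane sections; `Poincare` adds the squares `Y × Y` and Poincare duality.

1. Assume the sign conjecture for all varieties, and that homologically trivial endomorphisms of
motives are nilpotent. Then for every `m` the following are equivalent: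
* for all varieties `Y` (of any dimension), all direct summands `N` of `h(Y)` and all Chow-Kunneth
  decompositions of `N`: `CH_l(N_i) = 0` for `i < 2l` if `l ≤ m + 1` or `dim Y - l ≤ m`, and
  `CH_l(N_{2l})_hom = 0` if `l ≤ m` or `dim Y - l ≤ m`;
* `CH_j(Z_{2j})_hom = 0` for all `j ≤ m`, all varieties `Z` of dimension `2j` over algebraically
  closed fields and every Chow-Kunneth decomposition of `h(Z)`.

For `m ≤ 1` the second statement is classical (points, divisors on surfaces).

2. The following are equivalent:
* Murre's conjectures (A), (B), (C), (D) for all motives over all fields;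
* every motive has a Chow-Kunneth decomposition, and the second statement of 1. holds for all `m`;
* the sign conjecture for all varieties; and (D*) in the middle: if `dim Z = 2m`, the base field
  is algebraically closed and `θ : h(Z) ⟶ h(Z)` is zero on `H_j(Z)` for all `j ≠ 2m`, then `θ` is
  locally nilpotent on `CH_m(Z)_hom`.

In particular (B) and (C) follow from (A) and (D). -/
theorem Pool.Agent.Results.MP_38de51_ag.MiddleD.result {F : Type w} [Field F]
    (G : Geometry.{w, v, u} F) :
    (Sign G → Nilpotent G → ∀ m : ℕ, (RangeB G m ∧ RangeD G m) ↔ ∀ j ≤ m, MiddleD G j) ∧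
    (Poincare G → List.TFAE [
      Murre G,
      ConjA G ∧ ∀ m : ℕ, MiddleD G m,
      Sign G ∧ ∀ m : ℕ, MiddleNil G m]) := by
  refine ⟨fun hS hN => level G hS hN, fun P => ?_⟩
  have h := P.tfae
  tfae_have 1 ↔ 2 := h.out 0 2
  tfae_have 1 ↔ 3 := h.out 0 4
  tfae_finish
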