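import Mathlib
import Pool.Agent.LckM.Main

open CategoryTheory MonoidalCategory
open Pool.Agent.LefCK Pool.Agent.LckM

universe w v u

/-- `G : Fields F` is the formal setting: the correspondences between the smooth projective varieties
over all fields `k` (of one characteristic), with a Weil homology, base change, transposition, the
classical facts on divisors. `V` is a class of varieties `X` (each with some ample classes) over all
fields which contains their algebraic closures, generic ample divisors and (after resolution of a
node) the members of pencils of ample divisors.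

0. Lefschetz-Chow-Kuenneth decompositions (Chow-Kuenneth decompositions with hard Lefschetz for Chow
motives) are inherited by the blow-ups of points and under base change.

1. For every `m` the following are equivalent:
* for all `X ∈ V` and all LCKs: `CH_l(M_i) = 0` for `i < 2l` if `i ≤ l + m` or `dim X ≤ l + m`;
* (B) for all `X ∈ V` of dimension `≤ 2m + 2`;
* `CH_{j+1}(M_{2j+1}) = 0` for the `X ∈ V` of dimension `2j + 1`, `j ≤ m`, `k` algebraically closed.

2. For every `m` the following are equivalent:
* the first statement of 1, and `CH_l(M_{2l})_hom = 0` if `l ≤ m` or `dim X ≤ l + m`;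
* (B) and (D) for all `X ∈ V` of dimension `≤ 2m + 1`;
* `CH_j(M_{2j})_hom = 0` for the `X ∈ V` of dimension `2j`, `j ≤ m`, `k` algebraically closed.

3. All these statements are true for `m = 1`.

4. If `V` is closed under products, and all `X ∈ V` have an LCK or all `X ∈ V` satisfy the standard
conjecture of Lefschetz type, then the following are equivalent:
* Murre's conjectures (A), (B), (C), (D) for all motives `(X, f, r)`, `X ∈ V`;
* the same, with (B) and (D) for every Chow-Kuenneth decomposition;
* all `X ∈ V` have an LCK, and `CH_m(M_{2m})_hom = 0` if `dim X = 2m`, `k` algebraically closed;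
* homologically trivial correspondences of degree 0 on `X ∈ V` are nilpotent, and if `dim X = 2m`,
  `k` algebraically closed, `CH_m(M_{2m})_hom = 0` for some Chow-Kuenneth decomposition of `X`;
* if `dim X = 2m`, `k` algebraically closed, a correspondence `θ` on `X` of degree 0 which acts as
  zero on `H_j(X)` for `j ≠ 2m` is locally nilpotent on `CH_m(X)_hom`.

5. If `V` is closed under products, and all `X ∈ V` have an LCK, then the third statement of 2 for
`m` implies Murre's conjectures for all motives `(X, f, r)`, `X ∈ V`, `dim X ≤ m`. -/
theorem Pool.Agent.Results.MP_38de51_ag.MiddleLCK.result {F : Type w} [Field F]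
    (G : Fields.{w, v, u} F) :
    ((∀ k, BlowInherit (G.th k).K) ∧ ∀ k k', BaseInherit (G.th k).K (G.th k').K) ∧
    ∀ V : G.Class, G.Pencils V →
      (∀ m : ℕ, List.TFAE [
        G.RangeB V m,
        G.SmallB V m,
        ∀ j ≤ m, G.MiddleB V j]) ∧
      (∀ m : ℕ, List.TFAE [
        G.RangeB V m ∧ G.RangeD V m,
        G.SmallBD V m,
        ∀ j ≤ m, G.MiddleD V j]) ∧
      (G.RangeB V 1 ∧ G.RangeD V 1) ∧
      (G.ProductClosed V → (G.HasLCK V ∨ ∀ k P, V k P → Standard (G.th k).K P) → List.TFAE [
        G.MurreFor V,
        G.MurreAllFor V,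
        G.HasLCK V ∧ ∀ m, G.MiddleD V m,
        (∀ k P, V k P → NilHom (G.th k).K P.X) ∧ ∀ m, G.MiddleCK V m,
        ∀ m, G.MiddleNil V m]) ∧
      (G.ProductClosed V → G.HasLCK V → ∀ m : ℕ, (∀ j ≤ m, G.MiddleD V j) →
        G.MurreAllFor (G.Small V m)) := by
  refine ⟨⟨fun k P Q h => ?_, fun k k' B P h => ?_⟩, fun V hV =>
    ⟨b_tfae hV, bd_tfae hV, ?_, main_tfae hV, fun hPC hl m hM k P hP =>
      murreAll_small hV hPC hl hM hP.1 hP.2⟩⟩
  · exact h.elim fun e => (exists_blow e Q).elim fun q _ => ⟨q⟩
  · exact h.elim fun e => (B.exists_lck e).elim fun q _ => ⟨q⟩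
  · refine ((bd_tfae hV 1).out 0 2).2 fun j hj => ?_
    rcases Nat.le_one_iff_eq_zero_or_eq_one.1 hj with rfl | rfl
    · exact middle_zero hV
    · exact middle_one hV
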