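import Mathlib
import Pool.Agent.SprM.MainB
import Pool.Agent.SprM.One
import Pool.Agent.SprM.ZeroE

open CategoryTheory MonoidalCategory
open Pool.Agent.LefCK Pool.Agent.LckM Pool.Agent.SprM

universe w v u

/-- Let `X` be a smooth projective variety over `K`, where `K` is finitely generated of transcendence
degree `s` over an algebraically closed field `k`. A model of `X` is a smooth projective variety `Y`
over `k`, a compactification (or an alteration of a compactification) of a smooth projective family
over a smooth affine variety `U` with the generic fibre `X`, `k(U) = K`, together with the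
push-forward `β : h(D) → h(Y)` from a variety `D` which dominates the boundary.

1. (Transfer) Let `Y` be a model of `X` such that the homologically trivial correspondences `Y → Y`
are nilpotent and `β` has a quasi-inverse modulo homological equivalence; let `h(Y) = ⊕ M_j` be a
Chow-Kuenneth decomposition, and let `A` be a set of integers `i` with `i ≤ 2l` or `i > 2l + s` such
that `CH_(l+s)(M_j)_hom = 0` for `i + s ≤ j ≤ i + 2s`, `i ∈ A`. Then a correspondence `θ : X → X` of
degree 0 which acts as zero on `H_j(X)` for `j ∉ A` is locally nilpotent on `CH_l(X)_hom`, and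
`CH_(l+r)(N_(i+2r))_hom = 0`, `i ∈ A`, for all motives `N = (X, f, r)` and all their Chow-Kuenneth
decompositions.

(OneVariety) Let `X` satisfy the Kuenneth conjecture C, and let there be such models of `X` and
of `X × X` with Chow-Kuenneth decompositions which satisfy (B) (or (B) and (D)). Then (A), (B), (C) (or
(A)-(D)) hold for all motives `(X, f, r)`, with (B) (and (D)) for every Chow-Kuenneth decomposition.

(OneFrobenius) If `k` is an algebraic closure of a finite field: every model `Y` of `X` such that the
homologically trivial correspondences `Y → Y` are nilpotent and `β` has a quasi-inverse satisfies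
(B), and (B) and `F^(s+1) CH_l(N) = 0` hold for all motives `N = (X, f, r)` and every Chow-Kuenneth
decomposition of `N`; if moreover `CH_*(Y)_hom = 0` then (D) holds too.

Let `G : Spreading F` be the correspondences over all fields of a given characteristic, and `k₀` the
algebraic closure of the prime field.

2. If the Kuenneth conjecture C holds over all fields (for instance if Murre's (A) holds over all
fields), then the standard conjecture B of Lefschetz type holds over all fields, for the
geometrically connected varieties. In characteristic 0 then also the standard conjecture D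
(homological and numerical equivalence agree) holds over all fields. Hence in characteristic 0 the
following are equivalent: Murre's conjectures for all motives over all fields; the same with (B) and
(D) for every Chow-Kuenneth decomposition, and the standard conjectures B and D over all fields; C
over all fields and Murre's conjectures over `k₀`; D and Murre's conjectures over `k₀`; D, C and the
local nilpotence of 3 over `k₀`. Similarly (A), (B), (C) and the nilpotence N of the homologically
trivial correspondences hold over all fields if and only if these and D hold over `k₀`; and Murre's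
conjectures over all fields with `F^(2+d) = 0` over the fields of transcendence degree `≤ d` are
equivalent to D, C and the injectivity of the Abel-Jacobi maps over `k₀`.

3. In every characteristic, if D holds over `k₀`:
* the following are equivalent: Murre's conjectures (A)-(D) for all motives over `k₀`; the same for
  all motives over all fields, with (B) and (D) for every Chow-Kuenneth decomposition; C over `k₀`,
  and for all varieties `X` over `k₀` every correspondence `θ : X → X` of degree 0 which acts as
  zero on `H_j(X)` for `j > 2l` is locally nilpotent on `CH_l(X)_hom`;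
* (A), (B), (C) and N for all motives over `k₀` imply the same over all fields;
* for every `ν > 0`: if also `F^ν = 0` over `k₀`, then also `F^(ν+d) = 0` over the fields of
  transcendence degree `≤ d`;
* C and the injectivity of the Abel-Jacobi maps over `k₀` (for the action of correspondences) are
  equivalent to Murre's conjectures over all fields, together with `F^(2+d) = 0` over the fields of
  transcendence degree `≤ d`;
* C and N over `k₀` imply C and N over all fields; and if moreover `CH_l(M_(2l+w'))_hom = 0` for all
  varieties over `k₀` and all `w - d ≤ w' ≤ w`, then `CH_l(M_(2l+w))_hom = 0` for all varieties over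
  the fields of transcendence degree `≤ d`, for `w ≤ 0` and for `w > d`;
* in positive characteristic, N over `k₀` is equivalent to: (A), (B), (C) and N over all fields, and
  `F^(1+d) = 0` over the fields of transcendence degree `≤ d`.

4. In positive characteristic the following are equivalent: rational and numerical equivalence agree
over `k₀`; D and Murre's conjectures hold over `k₀`; D holds over `k₀`, Murre's conjectures hold over
all fields, and `F^(1+d) = 0` over the fields of transcendence degree `≤ d`. -/
theorem Pool.Agent.Results.MP_38de51_ag.Spreading.result {F : Type w} [Field F] :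
    (∀ S S' : Theory.{w, v, u} F, Transfer S.K S'.K ∧ OneVariety S.K S'.K ∧
      (Frobenius S.K → OneFrobenius S.K S'.K)) ∧
    ∀ G : Spreading.{w, v, u} F,
      (∀ Q : G.Sections,
        ((∀ K : G.Fld, G.COver K) → ∀ K : G.Fld, LefAll (Q.facts K)) ∧
        (Kleiman Q →
          ((∀ K : G.Fld, G.COver K) → ∀ K : G.Fld, G.HomNum K) ∧
          List.TFAE [∀ K : G.Fld, G.MurreOver K,
            ∀ K : G.Fld, G.MurreAllOver K ∧ LefAll (Q.facts K) ∧ G.HomNum K,
            (∀ K : G.Fld, G.COver K) ∧ G.MurreOver G.k₀,
            G.HomNum G.k₀ ∧ G.MurreOver G.k₀,
            G.HomNum G.k₀ ∧ G.LocNilOver G.k₀] ∧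
          ((∀ K : G.Fld, G.PartOver K) ↔ G.HomNum G.k₀ ∧ G.PartOver G.k₀) ∧
          (G.Bounded G.MurreAllOver 2 ↔ G.HomNum G.k₀ ∧ G.AbelJacobiOver G.k₀))) ∧
      (G.HomNum G.k₀ →
        List.TFAE [G.MurreOver G.k₀, ∀ K : G.Fld, G.MurreAllOver K, G.LocNilOver G.k₀] ∧
        (G.PartOver G.k₀ ↔ ∀ K : G.Fld, G.PartOver K) ∧
        (∀ ν : ℕ, 0 < ν →
          (G.MurreOver G.k₀ ∧ G.FilOver G.k₀ ν ↔ G.Bounded G.MurreAllOver ν) ∧
          (G.PartOver G.k₀ ∧ G.FilOver G.k₀ ν ↔ G.Bounded G.PartOver ν)) ∧
        (G.AbelJacobiOver G.k₀ ↔ G.Bounded G.MurreAllOver 2) ∧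
        (G.COver G.k₀ ∧ G.NOver G.k₀ →
          (∀ K : G.Fld, G.COver K ∧ G.NOver K) ∧
          ∀ (K : G.Fld) (d : ℕ) (w : ℤ), G.TrDeg K d → (w ≤ 0 ∨ (d : ℤ) < w) →
            (∀ w' : ℤ, w - d ≤ w' → w' ≤ w → G.WeightOver G.k₀ w') → G.WeightOver K w) ∧
        (G.Frob → (G.NOver G.k₀ ↔ G.Bounded G.PartOver 1))) ∧
      (G.Frob → List.TFAE [G.RatNum, G.HomNum G.k₀ ∧ G.MurreOver G.k₀,
        G.HomNum G.k₀ ∧ G.Bounded G.MurreAllOver 1]) := by
  refine ⟨fun S S' => ⟨transfer_all S S', oneVariety S S', fun hF => oneFrobenius hF⟩,
    fun G => ⟨fun Q => ⟨fun h => lefAll_of_kuenneth Q h, fun hQ => ⟨homNum_of_kuenneth hQ,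
      zero_tfae hQ, zero_part hQ, zero_abelJacobi hQ⟩⟩,
      fun hD => ?_, fun hF =>
      ratNum_tfae hF.kuenneth (fun hN w hw => hF.weightZero hN hw)⟩⟩
  have hss := semisimple_of_homNum (G.int G.k₀) hD
  exact ⟨base_tfae' hD, ⟨fun h K => part_of_base hss h K, fun h => h G.k₀⟩,
    fun ν hν => ⟨bounded_iff hss hν, part_bounded_iff hss hν⟩, abelJacobi_iff' hD,
    fun h => ⟨fun K => ⟨fun X => (kuenneth_nilHom hss h.1 h.2 K X).1,
      fun X => (kuenneth_nilHom hss h.1 h.2 K X).2⟩,
      fun K d w hd hw => weight_transfer hss h.1 h.2 hd hw⟩,
    fun hF => part_bounded_one hss hF.kuenneth (fun hN w hw => hF.weightZero hN hw)⟩
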